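import Mathlib
import Pool.Agent.W946.KS.UBSK
import Pool.Agent.W23.KI.Defs

/-! KI-UBSI: an upper bound sieve of dimension `k`. -/

set_option autoImplicit false

namespace Pool.Agent.W397.KI

open Finset
open Pool.Agent.H373R2.T7
open Pool.Agent.W366.PL
open Pool.Agent.W23.PL Pool.Agent.W23.DC
open Pool.Agent.W23.KT Pool.Agent.W23.KS
open Pool.Agent.W23.SG (lf)
open Pool.Agent.W946.KS (mem_P1 mem_PK Fp_per dvd_Fp lf_lin not_dvd_mul k_bound alg1 a1 a2 a3 a6)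
open Pool.Agent.W23.KI

/-- the sieving conditions -/
def Qi (P : Finset ℕ) (S : Finset (ℤ × ℕ)) (m : ℕ) (c : ℤ) (l n : ℕ) : Prop :=
  ¬ l ∣ m ∧ (l ∈ P ∧ (l : ℤ) ∣ Fp S (c + m * n))

theorem perB_Qi (P : Finset ℕ) (S : Finset (ℤ × ℕ)) (m : ℕ) (c : ℤ) (hg : ∀ l ∈ P, gp S l) :
    PerB (Qi P S m c) S.card := by
  classical
  refine ⟨fun p n => ?_, fun l hl => ?_⟩
  · unfold Qi
    rw [Fp_per S c m p n]
  · by_cases hlm : l ∣ m
    · have : nuB (Qi P S m c) l = 0 := by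
        unfold nuB
        rw [Finset.card_eq_zero, Finset.filter_eq_empty_iff]
        intro n _ hn
        exact hn.1 hlm
      rw [this]; exact Nat.zero_le _
    · by_cases hP : l ∈ P
      · have hsub : (range l).filter (fun r => Qi P S m c l r) ⊆
            (S.biUnion fun L => (range l).filter (fun n : ℕ =>
              (l : ℤ) ∣ (L.1 + L.2 * c) + ((L.2 * m : ℕ) : ℤ) * n)) := by
          intro n hn
          rw [mem_filter] at hn
          rw [mem_biUnion]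
          obtain ⟨L, hL, hL2⟩ := (dvd_Fp hl S _).mp hn.2.2.2
          refine ⟨L, hL, mem_filter.mpr ⟨hn.1, ?_⟩⟩
          rw [← lf_lin]
          exact hL2
        unfold nuB
        calc _ ≤ _ := by
              refine le_trans (le_of_eq ?_) (card_le_card hsub)
              congr
          _ ≤ S.card := by
              refine card_biUnion_le.trans ?_
              calc _ ≤ ∑ L ∈ S, 1 := sum_le_sum fun L hL =>
                    card_one hl (not_dvd_mul hl ((hg l hP).1 L hL) hlm) _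
                _ = S.card := by simp
      · have : nuB (Qi P S m c) l = 0 := by
          unfold nuB
          rw [Finset.card_eq_zero, Finset.filter_eq_empty_iff]
          intro n _ hn
          exact hP hn.2.1
        rw [this]; exact Nat.zero_le _

theorem nu_ge_k {P : Finset ℕ} {S : Finset (ℤ × ℕ)} {m : ℕ} {c : ℤ} {l : ℕ} (hl : l.Prime)
    (hlm : ¬ l ∣ m) (hP : l ∈ P) (hg : gp S l) : S.card ≤ nuB (Qi P S m c) l := by
  classical
  obtain ⟨f, hf1, hf2⟩ := Pool.Agent.W946.KS.roots (c := c) hl hlm hP hg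
  unfold nuB
  rw [← card_image_of_injOn hf1]
  refine card_le_card ?_
  intro x hx
  obtain ⟨L, hL, rfl⟩ := mem_image.mp hx
  exact mem_filter.mpr ⟨(hf2 L hL).1, hlm, hP, (dvd_Fp hl S _).mpr ⟨L, hL, (hf2 L hL).2.1⟩⟩

open Classical in
theorem point {k : ℕ} {P : Finset ℕ} {S : Finset (ℤ × ℕ)} {m : ℕ} {c : ℤ} {l : ℕ} (hl : l.Prime)
    (hS : S.card = k) (hg : l ∈ P → gp S l) (hk : l ∈ P → 2 * (k : ℝ) ≤ l) :
    1 - (nuB (Qi P S m c) l : ℝ) / l ≤ (if l ∈ P then (1 - (k : ℝ) / (l : ℝ)) else 1) *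
        (if l ∈ P ∧ (l : ℤ) ∣ 1 * m then
          ((1 - (k : ℝ) / (l : ℝ)) * (1 - 1 / (l : ℝ)))⁻¹ else 1) := by
  have hl2 : (2 : ℝ) ≤ l := by exact_mod_cast hl.two_le
  have hl0 : (0 : ℝ) < l := by linarith
  have hx : 1 / (l : ℝ) ≤ 1 / 2 := one_div_le_one_div_of_le (by norm_num) hl2
  have hx0 : 0 < 1 / (l : ℝ) := by positivity
  have hkx : (k : ℝ) / l = k * (1 / (l : ℝ)) := by ring
  have hnu : (nuB (Qi P S m c) l : ℝ) / l = nuB (Qi P S m c) l * (1 / (l : ℝ)) := by ring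
  rw [hnu, hkx]
  have hkP : l ∈ P → (k : ℝ) * (1 / (l : ℝ)) ≤ 1 / 2 := by
    intro h
    have := hk h
    rw [mul_one_div, div_le_div_iff₀ hl0 (by norm_num)]
    linarith
  set x := 1 / (l : ℝ) with hxd
  have h1x : 0 < 1 - x := by linarith
  have h0 : (0 : ℝ) ≤ nuB (Qi P S m c) l * x := by positivity
  by_cases hP : l ∈ P
  · have hkx' := hkP hP
    have h1k : 0 < 1 - k * x := by linarith
    rw [if_pos hP]
    by_cases hlm : l ∣ m
    · have hlam : (l : ℤ) ∣ 1 * m := by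
        rw [one_mul]
        exact Int.natCast_dvd_natCast.mpr hlm
      rw [if_pos ⟨hP, hlam⟩]
      have e : (1 - k * x) * ((1 - k * x) * (1 - x))⁻¹ = (1 - x)⁻¹ := by
        field_simp
      rw [e]
      have : 1 ≤ (1 - x)⁻¹ := by
        rw [one_le_inv₀ h1x]
        linarith
      linarith
    · have hlam : ¬ (l : ℤ) ∣ 1 * m := by
        rw [one_mul]
        intro h
        exact hlm (Int.natCast_dvd_natCast.mp h)
      rw [if_neg (fun h => hlam h.2), mul_one]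
      have h2 : (k : ℝ) ≤ nuB (Qi P S m c) l := by
        have := nu_ge_k (c := c) hl hlm hP (hg hP)
        rw [hS] at this
        exact_mod_cast this
      have h3 : (k : ℝ) * x ≤ nuB (Qi P S m c) l * x := mul_le_mul_of_nonneg_right h2 hx0.le
      linarith
  · rw [if_neg hP, if_neg (fun h => hP h.1)]
    linarith

open Classical in
theorem prod_bound {k : ℕ} (P : Finset ℕ) (S : Finset (ℤ × ℕ)) (m : ℕ) (c : ℤ)
    (Y : ℕ) (hS : S.card = k) (hg : ∀ l ∈ P, gp S l) (hk : ∀ l ∈ P, 2 * (k : ℝ) ≤ l) :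
    ∏ l ∈ pz Y, (1 - (nuB (Qi P S m c) l : ℝ) / l) ≤
        (∏ l ∈ (pz Y).filter (fun l => l ∈ P), (1 - (k : ℝ) / (l : ℝ))) *
        ∏ l ∈ (pz Y).filter (fun l => l ∈ P ∧ (l : ℤ) ∣ 1 * m),
          ((1 - (k : ℝ) / (l : ℝ)) * (1 - 1 / (l : ℝ)))⁻¹ := by
  have hprime : ∀ l ∈ pz Y, l.Prime := fun l hl => (mem_pz.1 hl).2
  have h1 := Finset.prod_le_prod (s := pz Y) (f := fun l => 1 - (nuB (Qi P S m c) l : ℝ) / l)
    (g := fun l => (if l ∈ P then (1 - (k : ℝ) / (l : ℝ)) else 1) *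
        (if l ∈ P ∧ (l : ℤ) ∣ 1 * m then
          ((1 - (k : ℝ) / (l : ℝ)) * (1 - 1 / (l : ℝ)))⁻¹ else 1)) (fun l hl => by
      have hl0 : (0 : ℝ) < l := by exact_mod_cast (hprime l hl).pos
      have : (nuB (Qi P S m c) l : ℝ) / l ≤ 1 := by
        rw [div_le_one hl0]; exact_mod_cast nuB_le _ l
      linarith) (fun l hl => point (hprime l hl) hS (hg l) (hk l))
  refine h1.trans (le_of_eq ?_)
  rw [Finset.prod_mul_distrib, ← Finset.prod_filter, ← Finset.prod_filter]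

open Classical in
theorem count_bound (P : Finset ℕ) (S : Finset (ℤ × ℕ)) (L : ℤ × ℕ) {m : ℕ} (hm : 1 ≤ m)
    (hb : Nat.Coprime L.2 m) (N Y : ℕ) : ∃ c : ℤ,
    ((Icc 1 N).filter (fun n : ℕ => (m : ℤ) ∣ lf L n ∧ xx P (Fp S n) = 1)).card ≤
      ((Icc 1 (N / m + 1)).filter (fun n : ℕ => ∀ l ∈ pz Y, ¬ Qi P S m c l n)).card := by
  set T := (Icc 1 N).filter (fun n : ℕ => (m : ℤ) ∣ lf L n ∧ xx P (Fp S n) = 1) with hT
  rcases T.eq_empty_or_nonempty with he | ⟨p₀, hp₀⟩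
  · exact ⟨0, by rw [he]; simp⟩
  have hmod : ∀ p ∈ T, p % m = p₀ % m := by
    intro p hp
    have h2 := (mem_filter.mp hp).2.1
    have h3 := (mem_filter.mp hp₀).2.1
    have h4 : (m : ℤ) ∣ L.2 * ((p : ℤ) - p₀) := by
      have := dvd_sub h2 h3
      have e : lf L p - lf L p₀ = L.2 * ((p : ℤ) - p₀) := by unfold lf; ring
      rwa [e] at this
    have h5 : (m : ℤ) ∣ (p : ℤ) - p₀ := by
      have hc : IsCoprime (m : ℤ) (L.2 : ℤ) := Nat.isCoprime_iff_coprime.mpr hb.symm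
      exact hc.dvd_of_dvd_mul_left h4
    have h6 : (p : ℤ) % m = (p₀ : ℤ) % m := Int.emod_eq_emod_iff_emod_sub_eq_zero.mpr
      (Int.emod_eq_zero_of_dvd h5)
    exact_mod_cast h6
  refine ⟨((p₀ % m : ℕ) : ℤ) - m, ?_⟩
  refine card_le_card_of_injOn (fun p => p / m + 1) ?_ ?_
  · intro p hp
    rw [mem_coe] at hp
    have hpm := hmod p hp
    have hp' := mem_filter.mp hp
    rw [mem_Icc] at hp'
    rw [mem_coe, mem_filter, mem_Icc]
    refine ⟨⟨Nat.le_add_left 1 _, Nat.add_le_add_right (Nat.div_le_div_right hp'.1.2) 1⟩, ?_⟩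
    intro l hl hQ
    have hlp := mem_pz.1 hl
    have hval : ((p₀ % m : ℕ) : ℤ) - m + m * ((p / m + 1 : ℕ) : ℤ) = p := by
      rw [← hpm]
      have := Nat.div_add_mod p m
      have h4 : (p : ℤ) = m * ((p / m : ℕ) : ℤ) + ((p % m : ℕ) : ℤ) := by exact_mod_cast this.symm
      conv_rhs => rw [h4]
      push_cast
      ring
    obtain ⟨-, hlP, h5⟩ := hQ
    rw [hval] at h5
    have h9 := hp'.2.2
    unfold xx at h9
    by_cases h10 : ∀ q ∈ P, ¬ (q : ℤ) ∣ Fp S p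
    · exact h10 l hlP h5
    · rw [if_neg h10] at h9
      norm_num at h9
  · intro p hp p' hp' h
    rw [mem_coe] at hp hp'
    have h2 := hmod p hp
    rw [← hmod p' hp'] at h2
    have h4 : p / m = p' / m := by
      simp only at h
      omega
    rw [← Nat.div_add_mod p m, ← Nat.div_add_mod p' m, h2, h4]

open Classical in
theorem UBSI (hVLBK : St_VLBK) (_hRSK : St_RSK) : St_UBSI := by
  intro k M B hk hB ε₁ hε₁ hε₁1
  obtain ⟨K, x0, hK, hfund⟩ := sys_fund k hk 1 one_pos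
  obtain ⟨c₂, hc₂, hvlb⟩ := hVLBK k hk
  have hK0 : (0 : ℝ) < K := by exact_mod_cast hK
  have hK1 : (1 : ℝ) ≤ K := by exact_mod_cast hK
  set ε' := min ε₁ (1 / (4 * K : ℝ)) with hε'
  have hε'0 : 0 < ε' := lt_min hε₁ (by positivity)
  have hε'1 : ε' ≤ 1 := (min_le_left _ _).trans hε₁1
  obtain ⟨N1, h1⟩ := hvlb M B hB ε₁ hε₁ hε₁1
  obtain ⟨N2, h2⟩ := hvlb M B hB ε' hε'0 hε'1
  have htend : Filter.Tendsto (fun N : ℕ => (N : ℝ)) Filter.atTop Filter.atTop :=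
    tendsto_natCast_atTop_atTop
  have hlogt := Real.tendsto_log_atTop.comp htend
  have e1 : ∀ᶠ N : ℕ in Filter.atTop, 9 ≤ Real.log N := hlogt.eventually_ge_atTop 9
  have e1' : ∀ᶠ N : ℕ in Filter.atTop, 8 * (((0 : ℕ) : ℝ) + 1) * (k + 1) ≤ Real.log N :=
    hlogt.eventually_ge_atTop _
  have e1'' : ∀ᶠ N : ℕ in Filter.atTop, 2 * ((k : ℝ) + 1) ≤ Real.log N :=
    hlogt.eventually_ge_atTop _
  have e2 : ∀ᶠ N : ℕ in Filter.atTop, (x0 : ℝ) + 3 ≤ (N : ℝ) ^ (1 / (8 * K : ℝ)) :=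
    ((tendsto_rpow_atTop (by positivity)).comp htend).eventually_ge_atTop _
  have e3 : ∀ᶠ N : ℕ in Filter.atTop, 2 / c₂ ≤ (N : ℝ) ^ (1 / 2 : ℝ) :=
    ((tendsto_rpow_atTop (by norm_num)).comp htend).eventually_ge_atTop _
  have e4 : ∀ᶠ N : ℕ in Filter.atTop, Real.log N ^ k ≤ (N : ℝ) ^ (1 / 10 : ℝ) := by
    have h := (isLittleO_log_rpow_rpow_atTop ((k : ℕ) : ℝ)
      (show (0 : ℝ) < 1 / 10 by norm_num)).comp_tendsto htend
    filter_upwards [h.eventuallyLE, e1] with N hN h9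
    simp only [Function.comp_apply, Real.rpow_natCast, Real.norm_eq_abs] at hN
    rw [abs_of_nonneg (by positivity : (0 : ℝ) ≤ (N : ℝ) ^ (1 / 10 : ℝ)),
      abs_of_nonneg (pow_nonneg (by linarith) _)] at hN
    exact hN
  obtain ⟨N3, h3⟩ := Filter.eventually_atTop.mp
    (e1.and (e1'.and (e1''.and (e2.and (e3.and e4)))))
  set C' : ℝ := 16 * (ε₁ / ε') ^ k / c₂ ^ 2 with hC'
  have hC'0 : 0 < C' := by positivity
  refine ⟨C' + 1, max N1 (max N2 N3), by positivity, ?_⟩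
  intro N hN S hS L₀ hL₀ m hm hmN hcop
  have hN1 : N1 ≤ N := (le_max_left _ _).trans hN
  have hN2 : N2 ≤ N := ((le_max_left _ _).trans (le_max_right _ _)).trans hN
  have hN3 : N3 ≤ N := ((le_max_right _ _).trans (le_max_right _ _)).trans hN
  obtain ⟨hL9, hLk, hLk2, hx0, hc, hlogk⟩ := h3 N hN3
  obtain ⟨hVlow, -, -⟩ := h1 N hN1
  obtain ⟨-, hVup, hVPK⟩ := h2 N hN2
  obtain ⟨-, hVPK2⟩ := hVPK S hS.sys
  set L := Real.log N with hLd
  have hL0 : 0 < L := by linarith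
  have hN0 : (0 : ℝ) < N := by
    by_contra h
    have h2 : (N : ℝ) = 0 := le_antisymm (not_lt.mp h) (Nat.cast_nonneg N)
    rw [hLd, h2, Real.log_zero] at hL9
    linarith
  have hN1' : (1 : ℝ) ≤ N := by exact_mod_cast (Nat.cast_pos.mp hN0 : 0 < N)
  have hm0 : (0 : ℝ) < m := by exact_mod_cast hm
  have hm1 : (1 : ℝ) ≤ m := by exact_mod_cast hm
  have hmN' : (m : ℝ) ≤ N := hmN.trans (by
    calc (N : ℝ) ^ (1 / 20 : ℝ) ≤ (N : ℝ) ^ (1 : ℝ) :=
          Real.rpow_le_rpow_of_exponent_le hN1' (by norm_num)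
      _ = N := Real.rpow_one _)
  have hk0 : (0 : ℝ) ≤ k := Nat.cast_nonneg k
  -- the level
  set t := (N : ℝ) ^ (1 / (8 * K : ℝ)) with ht
  have ht3 : 3 ≤ t := by
    have : (0 : ℝ) ≤ x0 := Nat.cast_nonneg _
    linarith
  have htsq : (N : ℝ) ^ (1 / (4 * K : ℝ)) = t ^ 2 := by
    rw [ht, ← Real.rpow_natCast, ← Real.rpow_mul hN0.le]
    congr 1
    push_cast
    field_simp
    norm_num
  set Y : ℕ := ⌊(N : ℝ) ^ (1 / (4 * K : ℝ))⌋₊ with hY
  have hYle : (Y : ℝ) ≤ (N : ℝ) ^ (1 / (4 * K : ℝ)) := Nat.floor_le (by positivity)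
  have hYge : t ≤ Y := by
    have h4 : (N : ℝ) ^ (1 / (4 * K : ℝ)) < Y + 1 := Nat.lt_floor_add_one _
    rw [htsq] at h4
    exact a1 h4 ht3
  have hYx0 : x0 ≤ Y := by
    have : (x0 : ℝ) ≤ Y := by linarith
    exact_mod_cast this
  have hYpow : (Y : ℝ) ^ K ≤ (N : ℝ) ^ (1 / 4 : ℝ) := by
    calc (Y : ℝ) ^ K ≤ ((N : ℝ) ^ (1 / (4 * K : ℝ))) ^ K := pow_le_pow_left₀ (Nat.cast_nonneg _) hYle K
      _ = (N : ℝ) ^ (1 / 4 : ℝ) := by
        rw [← Real.rpow_natCast, ← Real.rpow_mul hN0.le]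
        congr 1
        field_simp
  have hN14 : (1 : ℝ) ≤ (N : ℝ) ^ (1 / 4 : ℝ) := Real.one_le_rpow hN1' (by norm_num)
  have hsqrt : √((Y ^ K : ℕ) : ℝ) ≤ (N : ℝ) ^ (1 / 4 : ℝ) := by
    rw [Nat.cast_pow]
    refine (Real.sqrt_le_sqrt hYpow).trans ?_
    rw [Real.sqrt_le_left (by positivity)]
    exact a2 hN14
  -- the sieve
  set P := PK N B ε₁ S with hP
  obtain ⟨c, hcount⟩ := count_bound P S L₀ hm hcop N Y
  set X := N / m + 1 with hX
  set Q := Qi P S m c with hQ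
  have hPprop : ∀ l ∈ P, l.Prime ∧ Real.log N ^ B ≤ (l : ℝ) ∧ gp S l := by
    intro l hl
    obtain ⟨h4, h5⟩ := mem_PK.1 hl
    obtain ⟨-, h6, h7, -⟩ := mem_P1.1 h4
    exact ⟨h6, h7, h5⟩
  have hPlow : ∀ l ∈ P, Real.log N ^ 2 ≤ (l : ℝ) := by
    intro l hl
    refine le_trans ?_ (hPprop l hl).2.1
    exact pow_le_pow_right₀ (by linarith) hB
  have hLsq : 2 * ((k : ℝ) + 1) ≤ L ^ 2 := a3 hLk2 hL9
  have hkP : ∀ l ∈ P, 2 * (k : ℝ) ≤ l := by
    intro l hl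
    have := hPlow l hl
    rw [← hLd] at this
    linarith
  have hcard := hS.sys.card
  have hper := perB_Qi P S m c (fun l hl => (hPprop l hl).2.2)
  rw [hcard] at hper
  have hf := hfund (Y ^ K) Y hYx0 le_rfl Q hper X
  set Pr := ∏ p ∈ pz Y, (1 - (nuB Q p : ℝ) / p) with hPr
  have hcount' : (((Icc 1 N).filter (fun n : ℕ => (m : ℤ) ∣ lf L₀ n ∧
      xx P (Fp S n) = 1)).card : ℝ) ≤ (((Icc 1 X).filter (fun n : ℕ => ∀ l ∈ pz Y,
        ¬ Q l n)).card : ℝ) := by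
    exact_mod_cast hcount
  have hf' := (abs_le.mp hf).2
  have hPr0 : 0 ≤ Pr := prod_nonneg fun p hp => by
    have hl0 : (0 : ℝ) < p := by exact_mod_cast (mem_pz.1 hp).2.pos
    have : (nuB Q p : ℝ) / p ≤ 1 := by
      rw [div_le_one hl0]; exact_mod_cast nuB_le _ p
    linarith
  -- the product
  have hpb := prod_bound P S m c Y hcard (fun l hl => (hPprop l hl).2.2) hkP
  have hAN : |((1 : ℤ) : ℝ)| ≤ (N : ℝ) ^ 0 := by simp
  have hkb := k_bound (k := k) P hm (one_ne_zero : (1 : ℤ) ≠ 0) hLk hLsq hPlow hAN hmN' Y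
  have hposk : ∀ l : ℕ, l ∈ P → 0 ≤ 1 - (k : ℝ) / (l : ℝ) ∧ 1 - (k : ℝ) / (l : ℝ) ≤ 1 := by
    intro l hl
    have hl0 : (0 : ℝ) < l := by exact_mod_cast (hPprop l hl).1.pos
    have h4 := hkP l hl
    have h5 : (k : ℝ) / l ≤ 1 / 2 := by
      rw [div_le_div_iff₀ hl0 (by norm_num)]
      linarith
    have h6 : 0 ≤ (k : ℝ) / l := by positivity
    constructor <;> linarith
  have hposk1 : ∀ l : ℕ, l ∈ P1 N B ε₁ → 0 ≤ 1 - (k : ℝ) / (l : ℝ) := by
    intro l hl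
    obtain ⟨-, h6, h7, -⟩ := mem_P1.1 hl
    have hl0 : (0 : ℝ) < l := by exact_mod_cast h6.pos
    have h4 : Real.log N ^ 2 ≤ (l : ℝ) :=
      le_trans (pow_le_pow_right₀ (by linarith) hB) h7
    rw [← hLd] at h4
    have h5 : (k : ℝ) / l ≤ 1 := by
      rw [div_le_one hl0]
      linarith
    linarith
  have hpos : ∀ l : ℕ, l.Prime → 0 ≤ 1 - 1 / (l : ℝ) ∧ 1 - 1 / (l : ℝ) ≤ 1 := by
    intro l hl
    have hl2 : (2 : ℝ) ≤ l := by exact_mod_cast hl.two_le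
    have hx : 1 / (l : ℝ) ≤ 1 / 2 := one_div_le_one_div_of_le (by norm_num) hl2
    have hx0 : 0 < 1 / (l : ℝ) := by positivity
    constructor <;> linarith
  have hsubP : PK N B ε' S ⊆ (pz Y).filter (fun l => l ∈ P) := by
    intro l hl
    obtain ⟨hl', hgl⟩ := mem_PK.1 hl
    obtain ⟨hl1, hlp, hlB, hlt⟩ := mem_P1.1 hl'
    rw [mem_filter, mem_pz]
    refine ⟨⟨?_, hlp⟩, ?_⟩
    · have hl0 : (0 : ℝ) < l := by exact_mod_cast hlp.pos
      have h5 : Real.log l < 1 / (4 * K) * L := by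
        have h6 : Real.log l / L < 1 / (4 * K) := lt_of_lt_of_le hlt (min_le_right _ _)
        rwa [div_lt_iff₀ hL0] at h6
      have h7 : (l : ℝ) ≤ (N : ℝ) ^ (1 / (4 * K : ℝ)) := by
        rw [← Real.log_le_log_iff hl0 (by positivity), Real.log_rpow hN0]
        exact h5.le
      exact Nat.le_floor h7
    · exact mem_PK.2 ⟨mem_P1.2 ⟨hl1, hlp, hlB, lt_of_lt_of_le hlt (min_le_left _ _)⟩, hgl⟩
  have hh : ∏ l ∈ (pz Y).filter (fun l => l ∈ P), (1 - (k : ℝ) / (l : ℝ)) ≤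
      Vk k (PK N B ε' S) := by
    unfold Vk
    refine Finset.prod_le_prod_of_subset_of_le_one hsubP (fun l hl => ?_) (fun l hl _ => ?_)
    · exact (hposk l (mem_filter.mp hl).2).1
    · exact (hposk l (mem_filter.mp hl).2).2
  set V := Vk k (P1 N B ε₁) with hVdef
  have hVV0 : 0 ≤ V := prod_nonneg fun l hl => hposk1 l hl
  have hVVε : Vk k (PK N B ε' S) ≤ 2 * ((ε₁ / ε') ^ k / c₂ ^ 2) * V := by
    refine hVPK2.trans ?_
    have h8 : (B * Real.log L / (ε' * L)) ^ k = (ε₁ / ε') ^ k * (B * Real.log L / (ε₁ * L)) ^ k := by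
      rw [← mul_pow]
      congr 1
      field_simp
    have h9 : (B * Real.log L / (ε₁ * L)) ^ k ≤ 1 / c₂ * V := by
      rw [div_mul_eq_mul_div, le_div_iff₀ hc₂, one_mul]
      linarith
    calc 2 * Vk k (P1 N B ε') ≤ 2 * (1 / c₂ * (B * Real.log L / (ε' * L)) ^ k) :=
          mul_le_mul_of_nonneg_left hVup (by norm_num)
      _ = 2 * (1 / c₂ * ((ε₁ / ε') ^ k * (B * Real.log L / (ε₁ * L)) ^ k)) := by rw [h8]
      _ ≤ 2 * (1 / c₂ * ((ε₁ / ε') ^ k * (1 / c₂ * V))) := by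
          refine mul_le_mul_of_nonneg_left ?_ (by norm_num)
          refine mul_le_mul_of_nonneg_left ?_ (by positivity)
          exact mul_le_mul_of_nonneg_left h9 (by positivity)
      _ = 2 * ((ε₁ / ε') ^ k / c₂ ^ 2) * V := by field_simp
  have hprod : Pr ≤ (2 * ((ε₁ / ε') ^ k / c₂ ^ 2) * V) * 2 := by
    refine hpb.trans ?_
    refine mul_le_mul (hh.trans hVVε) hkb (prod_nonneg fun l hl => ?_) (by positivity)
    rw [mem_filter] at hl
    exact inv_nonneg.mpr (mul_nonneg (hposk l hl.2.1).1 (hpos l (mem_pz.1 hl.1).2).1)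
  have hXle : (X : ℝ) ≤ 2 * (N / m) := by
    have h10 : ((N / m : ℕ) : ℝ) ≤ (N : ℝ) / m := Nat.cast_div_le
    have h11 : (1 : ℝ) ≤ N / m := by rwa [one_le_div hm0]
    rw [hX]
    push_cast
    linarith
  set E := C' * (N / m) * V with hE
  have hmain : 2 * (X * Pr) ≤ E := by
    calc 2 * (X * Pr) ≤ 2 * ((2 * (N / m)) * ((2 * ((ε₁ / ε') ^ k / c₂ ^ 2) * V) * 2)) := by
          refine mul_le_mul_of_nonneg_left ?_ (by norm_num)
          exact mul_le_mul hXle hprod hPr0 (by positivity)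
      _ = E := by
          rw [hE, hC']
          ring
  -- the error
  have herr : (N : ℝ) ^ (1 / 4 : ℝ) ≤ N / m * V := by
    have hVc : c₂ / L ^ k ≤ V := by
      refine le_trans ?_ hVlow
      have h12 : 1 ≤ Real.log L := by
        rw [Real.le_log_iff_exp_le hL0]
        have := Real.exp_one_lt_d9
        linarith
      have h13 : (1 : ℝ) ≤ B := by exact_mod_cast (by omega : 1 ≤ B)
      rw [div_eq_mul_one_div]
      refine mul_le_mul_of_nonneg_left ?_ hc₂.le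
      rw [← one_div_pow]
      refine pow_le_pow_left₀ (by positivity) ?_ k
      rw [div_le_div_iff₀ hL0 (by positivity)]
      have h14 : (1 : ℝ) ≤ B * Real.log L := one_le_mul_of_one_le_of_one_le h13 h12
      exact a6 hL0 hε₁1 h14
    calc (N : ℝ) ^ (1 / 4 : ℝ) ≤ N / ((N : ℝ) ^ (1 / 20 : ℝ)) * (c₂ / L ^ k) := by
          rw [div_mul_div_comm, le_div_iff₀ (by positivity)]
          have h16 : (N : ℝ) = (N : ℝ) ^ (1 / 4 : ℝ) * (N : ℝ) ^ (1 / 20 : ℝ) *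
              (N : ℝ) ^ (1 / 10 : ℝ) * (N : ℝ) ^ (1 / 10 : ℝ) * (N : ℝ) ^ (1 / 2 : ℝ) := by
            rw [← Real.rpow_add hN0, ← Real.rpow_add hN0, ← Real.rpow_add hN0, ← Real.rpow_add hN0]
            norm_num
          have h18 : 1 ≤ c₂ * (N : ℝ) ^ (1 / 2 : ℝ) := by
            rw [div_le_iff₀ hc₂] at hc
            linarith
          have h19 : (1 : ℝ) ≤ (N : ℝ) ^ (1 / 10 : ℝ) := Real.one_le_rpow hN1' (by norm_num)
          have h21 : L ^ k * 1 ≤ (N : ℝ) ^ (1 / 10 : ℝ) * ((N : ℝ) ^ (1 / 10 : ℝ) *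
              (c₂ * (N : ℝ) ^ (1 / 2 : ℝ))) := by
            refine mul_le_mul hlogk ?_ (by norm_num) (by positivity)
            exact one_le_mul_of_one_le_of_one_le h19 h18
          calc (N : ℝ) ^ (1 / 4 : ℝ) * ((N : ℝ) ^ (1 / 20 : ℝ) * L ^ k)
              = (N : ℝ) ^ (1 / 4 : ℝ) * (N : ℝ) ^ (1 / 20 : ℝ) * (L ^ k * 1) := by ring
            _ ≤ (N : ℝ) ^ (1 / 4 : ℝ) * (N : ℝ) ^ (1 / 20 : ℝ) *
                ((N : ℝ) ^ (1 / 10 : ℝ) * ((N : ℝ) ^ (1 / 10 : ℝ) *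
              (c₂ * (N : ℝ) ^ (1 / 2 : ℝ)))) := mul_le_mul_of_nonneg_left h21 (by positivity)
            _ = (N : ℝ) * c₂ := by
                conv_rhs => rw [h16]
                ring
      _ ≤ N / m * V := by
          refine mul_le_mul ?_ hVc (by positivity) (by positivity)
          exact div_le_div_of_nonneg_left hN0.le (by positivity) hmN
  have hfin : (C' + 1) * (N / m) * V = E + N / m * V := by
    rw [hE]; ring
  rw [hfin]
  linarith

end Pool.Agent.W397.KI
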